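import Pool.Agent.KS6_41.Fit.Clo

set_option autoImplicit false

namespace Pool.Agent.KS6_41.Fit

open Finset

variable {V : Type*} [DecidableEq V]

/-- everything outside `A` is identified with `z` -/
def coll (A : Finset V) (z : V) (v : V) : V := if v ∈ A then v else z

lemma coll_coll {A A₁ : Finset V} {z z₁ : V} (h : A₁ ⊆ A) (hz : z ∉ A₁) (v : V) :
    coll A₁ z₁ (coll A z v) = coll A₁ z₁ v := by
  unfold coll
  by_cases h1 : v ∈ A
  · rw [if_pos h1]
  · have h2 : v ∉ A₁ := fun hh => h1 (h hh)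
    simp [h1, h2, hz]

/-- the restriction of a rooted tree -/
lemma restrict {W : Finset V} {M : Finset (Sym2 V)} {r : V} {π : V → V} {d : V → ℕ}
    (h : Par W M r π d) {A₁ : Finset V} {z₁ : V} {M₁ : Finset (Sym2 V)} (hA : A₁ ⊆ W)
    (hz : z₁ ∉ A₁) (hM : M₁ ⊆ M) (hw : Within A₁ M₁) (q : V) (hq : r ∈ A₁ → q = r) :
    ∃ d', Par (insert z₁ A₁) M₁ z₁ (fun x => if x = q then z₁ else coll A₁ z₁ (π x)) d' := by
  refine ⟨fun x => if x = z₁ then 0 else d x + 1, Finset.mem_insert_self _ _, by simp,
    fun x hx hxz => ?_⟩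
  have hx1 : x ∈ A₁ := (Finset.mem_insert.1 hx).resolve_left hxz
  have hnz : s(x, z₁) ∉ M₁ := fun hh => hz (hw.right hh)
  by_cases hxq : x = q
  · simp only [hxq, if_true]
    rw [hxq] at hnz hxz
    refine ⟨Finset.mem_insert_self _ _, by simp [hxz], hnz⟩
  · have hxr : x ≠ r := by
      rintro rfl
      exact hxq (hq hx1).symm
    obtain ⟨h1, h2, h3⟩ := h.2.2 x (hA hx1) hxr
    simp only [hxq, if_false]
    unfold coll
    by_cases h4 : π x ∈ A₁
    · have h5 : π x ≠ z₁ := by
        rintro h6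
        rw [h6] at h4
        exact hz h4
      simp only [h4, if_true, h5, if_false, hxz]
      exact ⟨Finset.mem_insert_of_mem h4, by omega, fun hh => h3 (hM hh)⟩
    · simp only [h4, if_false, if_true, hxz]
      exact ⟨Finset.mem_insert_self _ _, by omega, hnz⟩

/-- The sub-claim for the vertex set `A` with outside vertex `z`. -/
def ZC (A : Finset V) (M : Finset (Sym2 V)) (Λ : Multiset V) : Prop :=
  ∃ z π d, z ∉ A ∧ Par (insert z A) M z π d ∧ A.val.map π ≤ z ::ₘ Λ.map (coll A z)

lemma ZC.mono {A : Finset V} {M : Finset (Sym2 V)} {Λ : Multiset V} (h : ZC A M Λ)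
    (X : Multiset V) : ZC A M (Λ + X) := by
  obtain ⟨z, π, d, h1, h2, h3⟩ := h
  refine ⟨z, π, d, h1, h2, h3.trans ?_⟩
  rw [Multiset.map_add, ← Multiset.cons_add]
  exact Multiset.le_add_right _ _

lemma ZC_of {W : Finset V} {M : Finset (Sym2 V)} {r : V} {π : V → V} {d : V → ℕ}
    (h : Par W M r π d) {A₁ : Finset V} {z₁ : V} {M₁ : Finset (Sym2 V)} (hA : A₁ ⊆ W)
    (hz : z₁ ∉ A₁) (hM : M₁ ⊆ M) (hw : Within A₁ M₁) (q : V) (hq1 : q ∈ A₁) (hq : r ∈ A₁ → q = r)
    {Λ : Multiset V} (hΛ : ((A₁.erase q).val.map π).map (coll A₁ z₁) = Λ.map (coll A₁ z₁)) :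
    ZC A₁ M₁ Λ := by
  obtain ⟨d', hd'⟩ := restrict h hA hz hM hw q hq
  refine ⟨z₁, _, d', hz, hd', ?_⟩
  rw [map_erase_cons hq1, if_pos rfl, Multiset.cons_le_cons_iff, ← hΛ, Multiset.map_map]
  refine le_of_eq (Multiset.map_congr rfl fun x hx => ?_)
  have h1 : x ≠ q := (Finset.mem_erase.1 (show x ∈ A₁.erase q from hx)).1
  simp [h1]

lemma ZC_of' {W : Finset V} {M : Finset (Sym2 V)} {r : V} {π : V → V} {d : V → ℕ}
    (h : Par W M r π d) {A₁ : Finset V} {z₁ : V} {M₁ : Finset (Sym2 V)} (hA : A₁ ⊆ W)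
    (hz : z₁ ∉ A₁) (hM : M₁ ⊆ M) (hw : Within A₁ M₁) (hr : r ∉ A₁)
    {Λ : Multiset V} (hΛ : (A₁.val.map π).map (coll A₁ z₁) = Λ.map (coll A₁ z₁)) :
    ZC A₁ M₁ Λ := by
  obtain ⟨d', hd'⟩ := restrict h hA hz hM hw z₁ (fun hh => absurd hh hr)
  refine ⟨z₁, _, d', hz, hd', ?_⟩
  rw [← hΛ, Multiset.map_map]
  refine le_trans (le_of_eq (Multiset.map_congr rfl fun x hx => ?_)) (Multiset.le_cons_self _ _)
  have h1 : x ≠ z₁ := by
    rintro rfl
    exact hz (by simpa using hx)
  simp [h1]

/-- Combining two parts. -/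
lemma two {C1 C2 : Multiset V → Prop} {Q1 Q2 : Multiset V → Prop} {m1 m2 : ℕ}
    (mono1 : ∀ Λ X, Q1 Λ → Q1 (Λ + X)) (mono2 : ∀ Λ X, Q2 Λ → Q2 (Λ + X))
    (h1 : ∀ Λ, Q1 Λ → m1 ≤ Λ.card → ∃ X ≤ Λ, X.card = m1 ∧ C1 X)
    (h2 : ∀ Λ, Q2 Λ → m2 ≤ Λ.card → ∃ X ≤ Λ, X.card = m2 ∧ C2 X)
    {Λ₁ Λ₂ : Multiset V} (q1 : Q1 Λ₁) (q2 : Q2 Λ₂) (hc : m1 + m2 ≤ Λ₁.card + Λ₂.card) :
    ∃ X1 X2, X1 + X2 ≤ Λ₁ + Λ₂ ∧ X1.card = m1 ∧ X2.card = m2 ∧ C1 X1 ∧ C2 X2 := by
  by_cases h : m2 ≤ Λ₂.card
  · obtain ⟨X2, hX2, hc2, hC2⟩ := h2 Λ₂ q2 h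
    obtain ⟨Y, hY⟩ := Multiset.le_iff_exists_add.1 hX2
    have hcY := congrArg Multiset.card hY
    rw [Multiset.card_add] at hcY
    obtain ⟨X1, hX1, hc1, hC1⟩ := h1 (Λ₁ + Y) (mono1 _ _ q1) (by
      rw [Multiset.card_add]; omega)
    refine ⟨X1, X2, ?_, hc1, hc2, hC1, hC2⟩
    calc X1 + X2 ≤ (Λ₁ + Y) + X2 := Multiset.add_le_add_right hX1
      _ = Λ₁ + Λ₂ := by rw [hY, add_assoc, add_comm Y]
  · have h' : m1 ≤ Λ₁.card := by omega
    obtain ⟨X1, hX1, hc1, hC1⟩ := h1 Λ₁ q1 h'
    obtain ⟨Y, hY⟩ := Multiset.le_iff_exists_add.1 hX1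
    have hcY := congrArg Multiset.card hY
    rw [Multiset.card_add] at hcY
    obtain ⟨X2, hX2, hc2, hC2⟩ := h2 (Λ₂ + Y) (mono2 _ _ q2) (by
      rw [Multiset.card_add]; omega)
    refine ⟨X1, X2, ?_, hc1, hc2, hC1, hC2⟩
    calc X1 + X2 ≤ X1 + (Λ₂ + Y) := Multiset.add_le_add_left hX2
      _ = Λ₁ + Λ₂ := by rw [hY, add_comm Λ₂ Y, add_assoc]

lemma exists_lift {f : V → V} : ∀ (L X : Multiset V) (Λ : Multiset V), Λ.map f = L + X →
    ∃ Λ₁ Λ₂, Λ = Λ₁ + Λ₂ ∧ Λ₁.map f = L ∧ Λ₂.map f = X := by
  intro L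
  induction L using Multiset.induction_on with
  | empty => exact fun X Λ h => ⟨0, Λ, by simp, by simp, by simpa using h⟩
  | cons a L ih =>
    intro X Λ h
    rw [Multiset.cons_add] at h
    obtain ⟨j, hj, hja, hh⟩ := (Multiset.map_eq_cons f Λ _ a).2 h
    obtain ⟨Λ₁, Λ₂, h1, h2, h3⟩ := ih X _ hh
    refine ⟨j ::ₘ Λ₁, Λ₂, ?_, ?_, h3⟩
    · rw [Multiset.cons_add, ← h1, Multiset.cons_erase hj]
    · rw [Multiset.map_cons, hja, h2]

/-- Combine the claims for the two parts `A₁`, `A₂` of a vertex set. -/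
lemma combine {A₁ A₂ : Finset V} {M : Finset (Sym2 V)} (hdis : Disjoint A₁ A₂)
    (hM : ∀ i j, s(i, j) ∈ M → i ≠ j ∧ ((i ∈ A₁ ∧ j ∈ A₁) ∨ (i ∈ A₂ ∧ j ∈ A₂)))
    (ih1 : ∀ N Λ, Within A₁ N → ZC A₁ N Λ → N.card ≤ Λ.card → ∃ X ≤ Λ, X.card = N.card ∧ Clo N X)
    (ih2 : ∀ N Λ, Within A₂ N → ZC A₂ N Λ → N.card ≤ Λ.card → ∃ X ≤ Λ, X.card = N.card ∧ Clo N X)
    {Λ₁ Λ₂ : Multiset V} (h1 : ∀ N ⊆ M, Within A₁ N → ZC A₁ N Λ₁)
    (h2 : ∀ N ⊆ M, Within A₂ N → ZC A₂ N Λ₂)
    (hc : M.card ≤ (Λ₁ + Λ₂).card) : ∃ X ≤ Λ₁ + Λ₂, X.card = M.card ∧ Clo M X := by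
  classical
  set M₁ := M.filter (fun e => ∀ v ∈ e, v ∈ A₁) with hM1
  set M₂ := M.filter (fun e => ∀ v ∈ e, v ∈ A₂) with hM2
  have hw1 : Within A₁ M₁ := by
    intro i j hij
    rw [hM1, Finset.mem_filter] at hij
    exact ⟨hij.2 i (by simp), (hM i j hij.1).1⟩
  have hw2 : Within A₂ M₂ := by
    intro i j hij
    rw [hM2, Finset.mem_filter] at hij
    exact ⟨hij.2 i (by simp), (hM i j hij.1).1⟩
  have hU : M = M₁ ∪ M₂ := by
    ext e
    induction e using Sym2.ind with
    | h i j =>
    rw [Finset.mem_union, hM1, hM2, Finset.mem_filter, Finset.mem_filter]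
    constructor
    · intro he
      rcases (hM i j he).2 with ⟨h3, h4⟩ | ⟨h3, h4⟩
      · exact Or.inl ⟨he, by simp [h3, h4]⟩
      · exact Or.inr ⟨he, by simp [h3, h4]⟩
    · rintro (h3 | h3) <;> exact h3.1
  have hd : Disjoint M₁ M₂ := by
    rw [Finset.disjoint_left]
    intro e
    induction e using Sym2.ind with
    | h i j => exact fun h3 h4 => Finset.disjoint_left.1 hdis (hw1 i j h3).1 (hw2 i j h4).1
  have hcM : M.card = M₁.card + M₂.card := by
    conv_lhs => rw [hU]
    rw [Finset.card_union_of_disjoint hd]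
  rw [Multiset.card_add] at hc
  obtain ⟨X1, X2, h3, h4, h5, h6, h7⟩ := two (Q1 := ZC A₁ M₁) (Q2 := ZC A₂ M₂)
    (fun Λ X h => h.mono X) (fun Λ X h => h.mono X)
    (fun Λ hΛ hh => ih1 M₁ Λ hw1 hΛ hh) (fun Λ hΛ hh => ih2 M₂ Λ hw2 hΛ hh)
    (h1 M₁ (Finset.filter_subset _ _) hw1) (h2 M₂ (Finset.filter_subset _ _) hw2)
    (by omega)
  refine ⟨X1 + X2, h3, by rw [Multiset.card_add]; omega, ?_⟩
  rw [hU]
  exact clo_union hdis hw1 hw2 h6 h7

/-- The claim for a vertex set `A` with an outside vertex. -/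
theorem zclaim : ∀ (a k : ℕ) (A : Finset V) (M : Finset (Sym2 V)) (Λ : Multiset V),
    A.card = a → Λ.card = k → Within A M → ZC A M Λ → M.card ≤ Λ.card →
    ∃ X ≤ Λ, X.card = M.card ∧ Clo M X := by
  intro a
  induction a using Nat.strong_induction_on with
  | _ a iha =>
  have IHA : ∀ A₁ : Finset V, A₁.card < a → ∀ N Λ, Within A₁ N → ZC A₁ N Λ → N.card ≤ Λ.card →
      ∃ X ≤ Λ, X.card = N.card ∧ Clo N X :=
    fun A₁ hlt N Λ hw hZ hc => iha A₁.card hlt Λ.card A₁ N Λ rfl rfl hw hZ hc
  intro k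
  induction k with
  | zero =>
    intro A M Λ hA hΛ hM hZ hc
    have h0 : M = ∅ := Finset.card_eq_zero.1 (by omega)
    subst h0
    obtain ⟨z, -⟩ := hZ
    have : Inhabited V := ⟨z⟩
    exact ⟨0, Multiset.zero_le _, by simp, clo_empty⟩
  | succ k ihk =>
    intro A M Λ hA hΛ hM hZ hc
    obtain ⟨z, π, d, hz, hP, hD⟩ := hZ
    have : Inhabited V := ⟨z⟩
    rcases Finset.eq_empty_or_nonempty M with rfl | hne
    · exact ⟨0, Multiset.zero_le _, by simp, clo_empty⟩
    have hA2 : 2 ≤ A.card := by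
      obtain ⟨e, he⟩ := hne
      induction e using Sym2.ind with
      | h i j =>
      have h1 := Finset.card_le_card (show ({i, j} : Finset V) ⊆ A by
        intro x hx
        rw [Finset.mem_insert, Finset.mem_singleton] at hx
        rcases hx with rfl | rfl
        · exact (hM _ _ he).1
        · exact hM.right he)
      rwa [Finset.card_pair (hM _ _ he).2] at h1
    have hWz : (insert z A).erase z = A := Finset.erase_insert hz
    have hWc : (insert z A).card = A.card + 1 := Finset.card_insert_of_notMem hz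
    have hD' : Dem (insert z A) z π (Λ.map (coll A z)) := by
      unfold Dem; rwa [hWz]
    have hρ : ∀ v, coll A z v ≠ v → ∀ e ∈ M, v ∉ e := by
      intro v hv e he hve
      obtain ⟨y, rfl⟩ := Sym2.mem_iff_exists.1 hve
      exact hv (if_pos (hM _ _ he).1)
    by_cases hcase : A.card ≤ Λ.card
    · obtain ⟨j, hj, hDj⟩ := spare hP hD' (by omega) (by omega)
      have hcj : (Λ.erase j).card = k := by
        rw [Multiset.card_erase_of_mem hj, hΛ]; rfl
      rcases hc.lt_or_eq with hlt | heq
      · obtain ⟨X, hX, h1, h2⟩ := ihk A M (Λ.erase j) hA hcj hM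
          ⟨z, π, d, hz, hP, by unfold Dem at hDj; rwa [hWz] at hDj⟩ (by omega)
        exact ⟨X, hX.trans (Multiset.erase_le _ _), h1, h2⟩
      · obtain ⟨e, he, c, hc', hval, r', π', d', hP', hDem'⟩ := step hP
          (fun i j hij => ⟨Finset.mem_insert_of_mem (hM i j hij).1, (hM i j hij).2⟩) hne hρ hj hDj
        obtain ⟨π'', d'', hP'', hDem'', -⟩ := reroot hP' hDem' _ z (Finset.mem_insert_self _ _) rfl
        unfold Dem at hDem''
        rw [hWz] at hDem''
        have hce : (Λ.erase c).card = k := by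
          rw [Multiset.card_erase_of_mem hc', hΛ]; rfl
        have hcM := Finset.card_erase_of_mem he
        obtain ⟨X, hX, h1, h2⟩ := ihk A (M.erase e) (Λ.erase c) hA hce
          (fun i j hij => hM i j (Finset.mem_of_mem_erase hij))
          ⟨z, π'', d'', hz, hP'', hDem''⟩ (by omega)
        refine ⟨c ::ₘ X, ?_, ?_, ?_⟩
        · rw [← Multiset.cons_erase hc', Multiset.cons_le_cons_iff]
          exact hX
        · rw [Multiset.card_cons, h1, Finset.card_erase_add_one he]
        · have h3 := clo_insert h2 (Finset.notMem_erase e M) (c := c) (by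
            rwa [Finset.insert_erase he])
          rwa [Finset.insert_erase he] at h3
    · -- no spare label
      have hDc := Multiset.card_le_card hD
      rw [Multiset.card_map, Multiset.card_cons, Multiset.card_map, Finset.card_val] at hDc
      have hΛA : Λ.card + 1 = A.card := by omega
      obtain ⟨p, hp, hpz⟩ := exists_child' hP (by
        rw [hWz]; exact Finset.card_pos.1 (by omega))
      rw [hWz] at hp
      have hDe : (A.erase p).val.map π = Λ.map (coll A z) := by
        rw [map_erase_cons hp, hpz, Multiset.cons_le_cons_iff] at hD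
        refine Multiset.eq_of_le_of_card_le hD ?_
        rw [Multiset.card_map, Multiset.card_map, Finset.card_val, Finset.card_erase_of_mem hp]
        omega
      -- parents in `A`
      have hpar : ∀ x ∈ A, π x ∈ insert z A ∧ d (π x) < d x ∧ s(x, π x) ∉ M := fun x hx =>
        hP.2.2 x (Finset.mem_insert_of_mem hx) (fun hh => hz (hh ▸ hx))
      -- a general finishing lemma for a closed set without crossing pairs
      have finish : ∀ A' ⊆ A, p ∈ A' → A' ≠ A →
          (∀ i j, s(i, j) ∈ M → (i ∈ A' ↔ j ∈ A')) → ∃ X ≤ Λ, X.card = M.card ∧ Clo M X := by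
        intro A' hA' hpA' hne' hcl
        have hss : A' ⊂ A := Finset.ssubset_iff_subset_ne.2 ⟨hA', hne'⟩
        have hc1 := Finset.card_lt_card hss
        have hc2 : (A \ A').card < a := by
          have := Finset.card_sdiff_of_subset hA'
          have h3 : 0 < A'.card := Finset.card_pos.2 ⟨p, hpA'⟩
          omega
        have hpp : p ∉ A \ A' := fun hh => (Finset.mem_sdiff.1 hh).2 hpA'
        have hdec : (A.erase p).val.map π = (A'.erase p).val.map π + (A \ A').val.map π := by
          rw [← Multiset.map_add]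
          congr 1
          have h4 : A.erase p = (A'.erase p).disjUnion (A \ A') (by
              rw [Finset.disjoint_left]
              intro x hx hx2
              exact (Finset.mem_sdiff.1 hx2).2 (Finset.mem_of_mem_erase hx)) := by
            ext x
            rw [Finset.mem_disjUnion, Finset.mem_erase, Finset.mem_erase, Finset.mem_sdiff]
            constructor
            · rintro ⟨h5, h6⟩
              by_cases h7 : x ∈ A'
              · exact Or.inl ⟨h5, h7⟩
              · exact Or.inr ⟨h6, h7⟩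
            · rintro (⟨h5, h6⟩ | ⟨h5, h6⟩)
              · exact ⟨h5, hA' h6⟩
              · exact ⟨fun h7 => h6 (h7 ▸ hpA'), h5⟩
          rw [h4, Finset.disjUnion_val]
        obtain ⟨Λ₁, Λ₂, hΛ12, hL1, hL2⟩ := exists_lift _ _ _ (hDe.symm.trans hdec)
        have hzA' : z ∉ A' := fun hh => hz (hA' hh)
        have hzA'' : z ∉ A \ A' := fun hh => hz (Finset.mem_sdiff.1 hh).1
        have h5 : ∀ N ⊆ M, Within A' N → ZC A' N Λ₁ := by
          intro N hN hw
          refine ZC_of hP (hA'.trans (Finset.subset_insert _ _)) hzA' hN hw p hpA'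
            (fun hh => absurd hh hzA') ?_
          rw [← hL1, Multiset.map_map]
          exact Multiset.map_congr rfl fun x _ => coll_coll hA' hzA' x
        have h6 : ∀ N ⊆ M, Within (A \ A') N → ZC (A \ A') N Λ₂ := by
          intro N hN hw
          refine ZC_of' hP (Finset.sdiff_subset.trans (Finset.subset_insert _ _)) hzA'' hN hw
            hzA'' ?_
          rw [← hL2, Multiset.map_map]
          exact Multiset.map_congr rfl fun x _ => coll_coll Finset.sdiff_subset hzA'' x
        rw [hΛ12]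
        refine combine Finset.disjoint_sdiff ?_ (IHA A' (by omega)) (IHA _ hc2) h5 h6
          (by rw [← hΛ12]; exact hc)
        intro i j hij
        refine ⟨(hM i j hij).2, ?_⟩
        by_cases h7 : i ∈ A'
        · exact Or.inl ⟨h7, (hcl i j hij).1 h7⟩
        · exact Or.inr ⟨Finset.mem_sdiff.2 ⟨(hM i j hij).1, h7⟩,
            Finset.mem_sdiff.2 ⟨hM.right hij, fun h8 => h7 ((hcl i j hij).2 h8)⟩⟩
      by_cases hiso : ∃ i, s(p, i) ∈ M
      · obtain ⟨i0, hi0⟩ := hiso
        obtain ⟨i, hi, hmin⟩ := Finset.exists_min_image (A.filter (fun i => s(p, i) ∈ M)) d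
          ⟨i0, Finset.mem_filter.2 ⟨hM.right hi0, hi0⟩⟩
        rw [Finset.mem_filter] at hi
        obtain ⟨hiA, hpi⟩ := hi
        have hip : i ≠ p := (hM _ _ hpi).2.symm
        have hcM := Finset.card_erase_of_mem hpi
        have hMpos : 0 < M.card := Finset.card_pos.2 hne
        obtain ⟨A', hA', hpA', hne', hcl⟩ := split_set (M.erase s(p, i)) A p hp (by omega)
        by_cases hiA' : i ∈ A'
        · refine finish A' hA' hpA' hne' fun x y hxy => ?_
          by_cases hxy' : s(x, y) = s(p, i)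
          · rcases Sym2.eq_iff.1 hxy' with ⟨rfl, rfl⟩ | ⟨rfl, rfl⟩ <;> simp [hpA', hiA']
          · exact hcl x y (Finset.mem_erase.2 ⟨hxy', hxy⟩) (hM x y hxy).1 (hM.right hxy)
        · -- the pair `{p, i}` is a bridge
          have hss : A' ⊂ A := Finset.ssubset_iff_subset_ne.2 ⟨hA', hne'⟩
          have hc1 := Finset.card_lt_card hss
          have hiA'' : i ∈ A \ A' := Finset.mem_sdiff.2 ⟨hiA, hiA'⟩
          have hc2 : (A \ A').card < a := by
            have := Finset.card_sdiff_of_subset hA'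
            have h3 : 0 < A'.card := Finset.card_pos.2 ⟨p, hpA'⟩
            omega
          have hiAp : i ∈ A.erase p := Finset.mem_erase.2 ⟨hip, hiA⟩
          obtain ⟨h1, h2, h3⟩ := hpar i hiA
          have hcmem : π i ∈ Λ.map (coll A z) := by
            rw [← hDe, map_erase_cons hiAp]
            exact Multiset.mem_cons_self _ _
          obtain ⟨c, hc', hcρ⟩ := Multiset.mem_map.1 hcmem
          have hval : ∀ v ∈ s(p, i), c ≠ v ∧ s(v, c) ∉ M := by
            by_cases hcc : coll A z c = c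
            · rw [hcc] at hcρ
              subst hcρ
              have hn1 : π i ≠ i := by
                intro hh; rw [hh] at h2; exact lt_irrefl _ h2
              have hn2 : π i ≠ p := by
                intro hh
                rw [hh, Sym2.eq_swap] at h3
                exact h3 hpi
              have hn3 : s(p, π i) ∉ M := by
                intro hh
                exact absurd (hmin _ (Finset.mem_filter.2 ⟨hM.right hh, hh⟩)) (not_le.2 h2)
              intro v hv
              rcases Sym2.mem_iff.1 hv with rfl | rfl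
              · exact ⟨hn2, hn3⟩
              · exact ⟨hn1, h3⟩
            · intro v hv
              refine ⟨?_, fun hh => hρ c hcc _ hh (by simp)⟩
              rintro rfl
              exact hρ _ hcc _ hpi hv
          have hDe2 : ((A.erase p).erase i).val.map π = (Λ.erase c).map (coll A z) := by
            rw [map_erase_cons hiAp, ← hcρ, ← Multiset.cons_erase hc', Multiset.map_cons,
              Multiset.cons_inj_right] at hDe
            exact hDe
          have hdec : ((A.erase p).erase i).val.map π =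
              (A'.erase p).val.map π + ((A \ A').erase i).val.map π := by
            rw [← Multiset.map_add]
            congr 1
            have h4 : (A.erase p).erase i = (A'.erase p).disjUnion ((A \ A').erase i) (by
                rw [Finset.disjoint_left]
                intro x hx hx2
                exact (Finset.mem_sdiff.1 (Finset.mem_of_mem_erase hx2)).2
                  (Finset.mem_of_mem_erase hx)) := by
              ext x
              rw [Finset.mem_disjUnion, Finset.mem_erase, Finset.mem_erase, Finset.mem_erase,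
                Finset.mem_erase, Finset.mem_sdiff]
              constructor
              · rintro ⟨h8, h5, h6⟩
                by_cases h7 : x ∈ A'
                · exact Or.inl ⟨h5, h7⟩
                · exact Or.inr ⟨h8, h6, h7⟩
              · rintro (⟨h5, h6⟩ | ⟨h8, h5, h6⟩)
                · exact ⟨fun h7 => hiA' (h7 ▸ h6), h5, hA' h6⟩
                · exact ⟨h8, fun h7 => h6 (h7 ▸ hpA'), h5⟩
            rw [h4, Finset.disjUnion_val]
          obtain ⟨Λ₁, Λ₂, hΛ12, hL1, hL2⟩ := exists_lift _ _ _ (hDe2.symm.trans hdec)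
          have hzA' : z ∉ A' := fun hh => hz (hA' hh)
          have hzA'' : z ∉ A \ A' := fun hh => hz (Finset.mem_sdiff.1 hh).1
          have h5 : ∀ N ⊆ M.erase s(p, i), Within A' N → ZC A' N Λ₁ := by
            intro N hN hw
            refine ZC_of hP (hA'.trans (Finset.subset_insert _ _)) hzA'
              (hN.trans (Finset.erase_subset _ _)) hw p hpA' (fun hh => absurd hh hzA') ?_
            rw [← hL1, Multiset.map_map]
            exact Multiset.map_congr rfl fun x _ => coll_coll hA' hzA' x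
          have h6 : ∀ N ⊆ M.erase s(p, i), Within (A \ A') N → ZC (A \ A') N Λ₂ := by
            intro N hN hw
            refine ZC_of hP (Finset.sdiff_subset.trans (Finset.subset_insert _ _)) hzA''
              (hN.trans (Finset.erase_subset _ _)) hw i hiA'' (fun hh => absurd hh hzA'') ?_
            rw [← hL2, Multiset.map_map]
            exact Multiset.map_congr rfl fun x _ => coll_coll Finset.sdiff_subset hzA'' x
          have hΛc : (Λ.erase c).card + 1 = Λ.card := by
            rw [Multiset.card_erase_of_mem hc', hΛ]; rfl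
          obtain ⟨X, hX, h7, h8⟩ := combine (M := M.erase s(p, i)) (Λ₁ := Λ₁) (Λ₂ := Λ₂)
            Finset.disjoint_sdiff (by
              intro x y hxy
              have hxy1 := Finset.mem_of_mem_erase hxy
              refine ⟨(hM x y hxy1).2, ?_⟩
              have h9 := hcl x y hxy (hM x y hxy1).1 (hM.right hxy1)
              by_cases h7 : x ∈ A'
              · exact Or.inl ⟨h7, h9.1 h7⟩
              · exact Or.inr ⟨Finset.mem_sdiff.2 ⟨(hM x y hxy1).1, h7⟩,
                  Finset.mem_sdiff.2 ⟨hM.right hxy1, fun h8 => h7 (h9.2 h8)⟩⟩)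
            (IHA A' (by omega)) (IHA _ hc2) h5 h6 (by rw [← hΛ12]; omega)
          rw [← hΛ12] at hX
          refine ⟨c ::ₘ X, ?_, ?_, ?_⟩
          · rw [← Multiset.cons_erase hc', Multiset.cons_le_cons_iff]
            exact hX
          · rw [Multiset.card_cons, h7, Finset.card_erase_add_one hpi]
          · have h3 := clo_insert h8 (Finset.notMem_erase _ M) (c := c) (by
              rwa [Finset.insert_erase hpi])
            rwa [Finset.insert_erase hpi] at h3
      · push Not at hiso
        refine finish {p} (Finset.singleton_subset_iff.2 hp) (by simp) ?_ ?_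
        · intro hh
          rw [← hh, Finset.card_singleton] at hA2
          omega
        · intro i j hij
          rw [Finset.mem_singleton, Finset.mem_singleton]
          constructor
          · rintro rfl
            exact absurd hij (hiso j)
          · rintro rfl
            rw [Sym2.eq_swap] at hij
            exact absurd hij (hiso i)

/-- The main combinatorial theorem. -/
theorem vclaim : ∀ (k : ℕ) (W : Finset V) (M : Finset (Sym2 V)) (Λ : Multiset V) (r : V)
    (π : V → V) (d : V → ℕ), Λ.card = k → Within W M → Par W M r π d → Dem W r π Λ →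
    2 ≤ W.card → M.card ≤ Λ.card → ∃ X ≤ Λ, X.card = M.card ∧ Clo M X := by
  intro k
  induction k with
  | zero =>
    intro W M Λ r π d hΛ hM hP hD hW hc
    have h0 : M = ∅ := Finset.card_eq_zero.1 (by omega)
    subst h0
    have : Inhabited V := ⟨r⟩
    exact ⟨0, Multiset.zero_le _, by simp, clo_empty⟩
  | succ k ihk =>
    intro W M Λ r π d hΛ hM hP hD hW hc
    have : Inhabited V := ⟨r⟩
    rcases Finset.eq_empty_or_nonempty M with rfl | hne
    · exact ⟨0, Multiset.zero_le _, by simp, clo_empty⟩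
    have hid : Λ.map (fun v => v) = Λ := Multiset.map_id' Λ
    by_cases hcase : W.card ≤ Λ.card + 1
    · obtain ⟨j, hj, hDj⟩ := spare (ρ := fun v => v) hP (by rwa [hid]) hW hcase
      have hcj : (Λ.erase j).card = k := by
        rw [Multiset.card_erase_of_mem hj, hΛ]; rfl
      rcases hc.lt_or_eq with hlt | heq
      · rw [Multiset.map_id'] at hDj
        obtain ⟨X, hX, h1, h2⟩ := ihk W M (Λ.erase j) r π d hcj hM hP hDj hW (by omega)
        exact ⟨X, hX.trans (Multiset.erase_le _ _), h1, h2⟩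
      · obtain ⟨e, he, c, hc', hval, r', π', d', hP', hDem'⟩ := step hP hM hne
          (ρ := fun v => v) (fun v hv => absurd rfl hv) hj hDj
        rw [Multiset.map_id'] at hDem'
        have hce : (Λ.erase c).card = k := by
          rw [Multiset.card_erase_of_mem hc', hΛ]; rfl
        have hcM := Finset.card_erase_of_mem he
        obtain ⟨X, hX, h1, h2⟩ := ihk W (M.erase e) (Λ.erase c) r' π' d' hce
          (fun i j hij => hM i j (Finset.mem_of_mem_erase hij)) hP' hDem' hW (by omega)
        refine ⟨c ::ₘ X, ?_, ?_, ?_⟩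
        · rw [← Multiset.cons_erase hc', Multiset.cons_le_cons_iff]
          exact hX
        · rw [Multiset.card_cons, h1, Finset.card_erase_add_one he]
        · have h3 := clo_insert h2 (Finset.notMem_erase e M) (c := c) (by
            rwa [Finset.insert_erase he])
          rwa [Finset.insert_erase he] at h3
    · have hWr : (W.erase r).card + 1 = W.card := Finset.card_erase_add_one hP.1
      have hDc := Multiset.card_le_card hD
      rw [Multiset.card_map, Multiset.card_cons, Finset.card_val] at hDc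
      have hΛW : Λ.card + 2 = W.card := by omega
      obtain ⟨A', hA', hrA', hne', hcl⟩ := split_set M W r hP.1 (by omega)
      have hss : A' ⊂ W := Finset.ssubset_iff_subset_ne.2 ⟨hA', hne'⟩
      obtain ⟨x₀, hx0, hx0π, -⟩ := exists_child hP (W \ A') (fun x hx => by
        rw [Finset.mem_sdiff] at hx
        exact Finset.mem_erase.2 ⟨fun h => hx.2 (h ▸ hrA'), hx.1⟩)
        (Finset.sdiff_nonempty.2 fun hh => hne' (Finset.Subset.antisymm hA' hh))
      have hx0W : x₀ ∈ W := (Finset.mem_sdiff.1 hx0).1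
      have hx0A' : x₀ ∉ A' := (Finset.mem_sdiff.1 hx0).2
      have hx0r : x₀ ≠ r := fun h => hx0A' (h ▸ hrA')
      have hy0W : π x₀ ∈ W := (hP.2.2 x₀ hx0W hx0r).1
      have hy0A' : π x₀ ∈ A' := by
        by_contra hh
        exact hx0π (Finset.mem_sdiff.2 ⟨hy0W, hh⟩)
      obtain ⟨π₁, d₁, hP1, hD1, hE1⟩ := reroot hP hD _ x₀ hx0W rfl
      set y₀ := π x₀ with hy0
      have hy0x0 : π₁ y₀ = x₀ := by
        rcases hE1 x₀ hx0W hx0r with ⟨h, -⟩ | ⟨-, h⟩
        · exact absurd rfl h
        · exact h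
      have hyx : y₀ ≠ x₀ := fun h => hx0A' (h ▸ hy0A')
      have hy0' : y₀ ∈ W.erase x₀ := Finset.mem_erase.2 ⟨hyx, hy0W⟩
      have hDe : ((W.erase x₀).erase y₀).val.map π₁ = Λ := by
        unfold Dem at hD1
        rw [map_erase_cons hy0', hy0x0, Multiset.cons_le_cons_iff] at hD1
        refine Multiset.eq_of_le_of_card_le hD1 ?_
        rw [Multiset.card_map, Finset.card_val, Finset.card_erase_of_mem hy0',
          Finset.card_erase_of_mem hx0W]
        omega
      have hdec : ((W.erase x₀).erase y₀).val.map π₁ =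
          (A'.erase y₀).val.map π₁ + ((W \ A').erase x₀).val.map π₁ := by
        rw [← Multiset.map_add]
        congr 1
        have h4 : (W.erase x₀).erase y₀ = (A'.erase y₀).disjUnion ((W \ A').erase x₀) (by
            rw [Finset.disjoint_left]
            intro x hx hx2
            exact (Finset.mem_sdiff.1 (Finset.mem_of_mem_erase hx2)).2
              (Finset.mem_of_mem_erase hx)) := by
          ext x
          rw [Finset.mem_disjUnion, Finset.mem_erase, Finset.mem_erase, Finset.mem_erase,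
            Finset.mem_erase, Finset.mem_sdiff]
          constructor
          · rintro ⟨h8, h5, h6⟩
            by_cases h7 : x ∈ A'
            · exact Or.inl ⟨h8, h7⟩
            · exact Or.inr ⟨h5, h6, h7⟩
          · rintro (⟨h5, h6⟩ | ⟨h8, h5, h6⟩)
            · exact ⟨h5, fun h7 => hx0A' (h7 ▸ h6), hA' h6⟩
            · exact ⟨fun h7 => h6 (h7 ▸ hy0A'), h8, h5⟩
        rw [h4, Finset.disjUnion_val]
      have hlift : Λ.map (fun v => v) = (A'.erase y₀).val.map π₁ +
          ((W \ A').erase x₀).val.map π₁ := by rw [hid, ← hdec, hDe]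
      rw [hid] at hlift
      have h5 : ∀ N ⊆ M, Within A' N → ZC A' N ((A'.erase y₀).val.map π₁) := by
        intro N hN hw
        exact ZC_of hP1 hA' hx0A' hN hw y₀ hy0A' (fun hh => absurd hh hx0A') rfl
      have h6 : ∀ N ⊆ M, Within (W \ A') N → ZC (W \ A') N (((W \ A').erase x₀).val.map π₁) := by
        intro N hN hw
        exact ZC_of hP1 Finset.sdiff_subset (fun hh => (Finset.mem_sdiff.1 hh).2 hy0A') hN hw
          x₀ hx0 (fun _ => rfl) rfl
      rw [hlift]
      refine combine Finset.disjoint_sdiff ?_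
        (fun N Λ h1 h2 h3 => zclaim _ _ A' N Λ rfl rfl h1 h2 h3)
        (fun N Λ h1 h2 h3 => zclaim _ _ _ N Λ rfl rfl h1 h2 h3) h5 h6
        (by rw [← hlift]; exact hc)
      intro i j hij
      refine ⟨(hM i j hij).2, ?_⟩
      have h9 := hcl i j hij (hM i j hij).1 (hM.right hij)
      by_cases h7 : i ∈ A'
      · exact Or.inl ⟨h7, h9.1 h7⟩
      · exact Or.inr ⟨Finset.mem_sdiff.2 ⟨(hM i j hij).1, h7⟩,
          Finset.mem_sdiff.2 ⟨hM.right hij, fun h8 => h7 (h9.2 h8)⟩⟩

end Pool.Agent.KS6_41.Fit
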