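import Mathlib

/-!
# Closing the non-edges of a graph one at a time

`M` is a finite set of pairs (the non-edges).  A pair `{i, j}` of `M` may be removed with label
`c ∉ {i, j}` as soon as `{i, c}` and `{j, c}` are not (any more) in `M`.
`Clo M L`: all of `M` can be removed, using the multiset of labels `L`.
-/

set_option autoImplicit false

namespace Pool.Agent.KS6_41.Fit

open Finset

variable {V : Type*} [DecidableEq V]

/-- `M` consists of honest pairs of elements of `W` -/
def Within (W : Finset V) (M : Finset (Sym2 V)) : Prop :=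
  ∀ i j, s(i, j) ∈ M → i ∈ W ∧ i ≠ j

omit [DecidableEq V] in
lemma Within.right {W : Finset V} {M : Finset (Sym2 V)} (h : Within W M) {i j : V}
    (hij : s(i, j) ∈ M) : j ∈ W := (h j i (by rwa [Sym2.eq_swap])).1

/-- the pairs of `M` can be removed with labels `L` -/
def Clo (M : Finset (Sym2 V)) (L : Multiset V) : Prop :=
  ∃ (lab : Sym2 V → V) (t : Sym2 V → ℕ), M.val.map lab = L ∧
    ∀ i j, s(i, j) ∈ M → lab s(i, j) ≠ i ∧
      (s(i, lab s(i, j)) ∈ M → t s(i, lab s(i, j)) < t s(i, j))

omit [DecidableEq V] in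
lemma clo_empty [Inhabited V] : Clo (∅ : Finset (Sym2 V)) 0 :=
  ⟨fun _ => default, fun _ => 0, rfl, fun i j h => by simp at h⟩

lemma clo_insert {M : Finset (Sym2 V)} {L : Multiset V} (h : Clo M L) {e : Sym2 V} (he : e ∉ M)
    {c : V} (hc : ∀ v ∈ e, c ≠ v ∧ s(v, c) ∉ insert e M) : Clo (insert e M) (c ::ₘ L) := by
  obtain ⟨lab, t, hL, hP⟩ := h
  refine ⟨fun x => if x = e then c else lab x, fun x => if x = e then 0 else t x + 1, ?_, ?_⟩
  · rw [Finset.insert_val_of_notMem he, Multiset.map_cons, if_pos rfl, ← hL]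
    congr 1
    refine Multiset.map_congr rfl fun x hx => ?_
    rw [if_neg]
    rintro rfl
    exact he hx
  · intro i j hij
    by_cases hije : s(i, j) = e
    · simp only [hije, if_true]
      have hi : i ∈ e := by rw [← hije]; simp
      refine ⟨(hc i hi).1, fun hh => absurd hh (hc i hi).2⟩
    · rw [Finset.mem_insert] at hij
      have hij' := hij.resolve_left hije
      simp only [hije, if_false]
      obtain ⟨h1, h2⟩ := hP i j hij'
      refine ⟨h1, fun hh => ?_⟩
      by_cases h3 : s(i, lab s(i, j)) = e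
      · simp [h3]
      · rw [Finset.mem_insert] at hh
        simp only [h3, if_false]
        exact Nat.succ_lt_succ (h2 (hh.resolve_left h3))

lemma clo_union {A B : Finset V} {M N : Finset (Sym2 V)} {L K : Multiset V} (hAB : Disjoint A B)
    (hM : Within A M) (hN : Within B N) (h1 : Clo M L) (h2 : Clo N K) :
    Clo (M ∪ N) (L + K) := by
  obtain ⟨lab, t, hL, hP⟩ := h1
  obtain ⟨lab', t', hK, hQ⟩ := h2
  have hdis : ∀ i j k, s(i, j) ∈ M → s(i, k) ∉ N := by
    intro i j k h3 h4
    exact Finset.disjoint_left.1 hAB (hM i j h3).1 (hN i k h4).1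
  have hd : Disjoint M N := by
    rw [Finset.disjoint_left]
    intro e
    induction e using Sym2.ind with
    | h i j => exact fun h3 => hdis i j j h3
  refine ⟨fun x => if x ∈ M then lab x else lab' x, fun x => if x ∈ M then t x else t' x, ?_, ?_⟩
  · rw [← Finset.disjUnion_eq_union M N hd, Finset.disjUnion_val, Multiset.map_add, ← hL, ← hK]
    congr 1
    · refine Multiset.map_congr rfl fun x hx => ?_
      rw [if_pos (by simpa using hx)]
    · refine Multiset.map_congr rfl fun x hx => ?_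
      rw [if_neg]
      intro h3
      exact Finset.disjoint_left.1 hd h3 (by simpa using hx)
  · intro i j hij
    by_cases h3 : s(i, j) ∈ M
    · simp only [h3, if_true]
      obtain ⟨h4, h5⟩ := hP i j h3
      refine ⟨h4, fun hh => ?_⟩
      rw [Finset.mem_union] at hh
      have h6 := hh.resolve_right (hdis i j _ h3)
      simp only [h6, if_true]
      exact h5 h6
    · simp only [h3, if_false]
      rw [Finset.mem_union] at hij
      have h3' := hij.resolve_left h3
      obtain ⟨h4, h5⟩ := hQ i j h3'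
      refine ⟨h4, fun hh => ?_⟩
      have h7 : s(i, lab' s(i, j)) ∉ M := fun h8 => hdis i _ j h8 h3'
      rw [Finset.mem_union] at hh
      have h6 := hh.resolve_left h7
      simp only [h7, if_false]
      exact h5 h6

/-- a rooted spanning tree of the complement of `M` on `W`, with depth function -/
def Par (W : Finset V) (M : Finset (Sym2 V)) (r : V) (π : V → V) (d : V → ℕ) : Prop :=
  r ∈ W ∧ d r = 0 ∧ ∀ x ∈ W, x ≠ r → π x ∈ W ∧ d (π x) < d x ∧ s(x, π x) ∉ M

/-- The multiset of labels `L` (with one more `r`) covers the parents. -/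
def Dem (W : Finset V) (r : V) (π : V → V) (L : Multiset V) : Prop :=
  (W.erase r).val.map π ≤ r ::ₘ L

lemma map_erase_cons {W : Finset V} {x : V} (hx : x ∈ W) (π : V → V) :
    W.val.map π = π x ::ₘ (W.erase x).val.map π := by
  conv_lhs => rw [← Finset.insert_erase hx]
  rw [Finset.insert_val_of_notMem (Finset.notMem_erase x W), Multiset.map_cons]

lemma map_update_erase (W : Finset V) (x y : V) (π : V → V) :
    (W.erase x).val.map (Function.update π x y) = (W.erase x).val.map π := by
  refine Multiset.map_congr rfl fun z hz => ?_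
  rw [Function.update_of_ne]
  have : z ∈ W.erase x := hz
  exact (Finset.mem_erase.1 this).1

/-- Changing the root. -/
lemma reroot {W : Finset V} {M : Finset (Sym2 V)} {r : V} {π : V → V} {d : V → ℕ}
    (h : Par W M r π d) {L : Multiset V} (hL : Dem W r π L) :
    ∀ k, ∀ j ∈ W, d j = k → ∃ π' d', Par W M j π' d' ∧ Dem W j π' L ∧
      ∀ x ∈ W, x ≠ r → (x ≠ j ∧ π' x = π x) ∨ (π x ≠ j ∧ π' (π x) = x) := by
  intro k
  induction k using Nat.strong_induction_on with
  | _ k ih =>
  intro j hj hk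
  by_cases hjr : j = r
  · subst hjr
    exact ⟨π, d, h, hL, fun x _ hx => Or.inl ⟨hx, rfl⟩⟩
  obtain ⟨h1, h2, h3⟩ := h.2.2 j hj hjr
  obtain ⟨π₁, d₁, hP, hD, hE⟩ := ih (d (π j)) (hk ▸ h2) (π j) h1 rfl
  set p := π j with hp
  have hpj : p ≠ j := by
    intro hh
    rw [hh] at h2
    exact lt_irrefl _ h2
  have hj1 : π₁ j = p := by
    rcases hE j hj hjr with ⟨_, h4⟩ | ⟨h4, _⟩
    · exact h4
    · exact absurd rfl h4
  refine ⟨Function.update π₁ p j, fun x => if x = j then 0 else d₁ x + 1, ?_, ?_, ?_⟩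
  · refine ⟨hj, by simp, fun x hx hxj => ?_⟩
    by_cases hxp : x = p
    · subst hxp
      rw [Function.update_self]
      refine ⟨hj, by simp [hxj], ?_⟩
      rw [Sym2.eq_swap]
      exact h3
    · rw [Function.update_of_ne hxp]
      obtain ⟨h4, h5, h6⟩ := hP.2.2 x hx hxp
      refine ⟨h4, ?_, h6⟩
      simp only [hxj, if_false]
      split_ifs
      · omega
      · omega
  · unfold Dem at hD ⊢
    have hj' : j ∈ W.erase p := Finset.mem_erase.2 ⟨hpj.symm, hj⟩
    have hp' : p ∈ W.erase j := Finset.mem_erase.2 ⟨hpj, h1⟩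
    rw [map_erase_cons hj' π₁, hj1, Multiset.cons_le_cons_iff] at hD
    rw [map_erase_cons hp', Function.update_self, Multiset.cons_le_cons_iff,
      map_update_erase, Finset.erase_right_comm]
    exact hD
  · intro x hx hxr
    rcases hE x hx hxr with ⟨h4, h5⟩ | ⟨h4, h5⟩
    · by_cases hxj : x = j
      · subst hxj
        right
        rw [← hp]
        exact ⟨hpj, Function.update_self _ _ _⟩
      · left
        exact ⟨hxj, by rw [Function.update_of_ne h4, h5]⟩
    · right
      refine ⟨fun h6 => ?_, by rw [Function.update_of_ne h4, h5]⟩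
      rw [h6, hj1] at h5
      have h7 := (h.2.2 x hx hxr).2.1
      rw [h6, ← h5] at h7
      exact absurd h2 (not_lt.2 h7.le)

/-- A child of the root. -/
lemma exists_child {W : Finset V} {M : Finset (Sym2 V)} {r : V} {π : V → V} {d : V → ℕ}
    (h : Par W M r π d) (S : Finset V) (hS : S ⊆ W.erase r) (hne : S.Nonempty)  :
    ∃ x ∈ S, π x ∉ S ∧ ∀ y ∈ S, d x ≤ d y := by
  obtain ⟨x, hx, hmin⟩ := Finset.exists_min_image S d hne
  refine ⟨x, hx, fun hh => ?_, hmin⟩
  have h1 := Finset.mem_erase.1 (hS hx)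
  have h2 := (h.2.2 x h1.2 h1.1).2.1
  exact absurd (hmin _ hh) (not_le.2 h2)

lemma exists_child' {W : Finset V} {M : Finset (Sym2 V)} {r : V} {π : V → V} {d : V → ℕ}
    (h : Par W M r π d) (hne : (W.erase r).Nonempty) :
    ∃ x ∈ W.erase r, π x = r := by
  obtain ⟨x, hx, hx2, -⟩ := exists_child h (W.erase r) (subset_refl _) hne
  refine ⟨x, hx, ?_⟩
  have h1 := Finset.mem_erase.1 hx
  by_contra h3
  exact hx2 (Finset.mem_erase.2 ⟨h3, (h.2.2 x h1.2 h1.1).1⟩)

/-- A label that is not needed. -/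
lemma spare {W : Finset V} {M : Finset (Sym2 V)} {r : V} {π : V → V} {d : V → ℕ}
    (h : Par W M r π d) {ρ : V → V} {Λ : Multiset V} (hD : Dem W r π (Λ.map ρ))
    (h2 : 2 ≤ W.card) (hc : W.card ≤ Λ.card + 1) :
    ∃ j ∈ Λ, Dem W r π ((Λ.erase j).map ρ) := by
  have hcard : (W.erase r).card + 1 = W.card := Finset.card_erase_add_one h.1
  obtain ⟨x, hx, hxr⟩ := exists_child' h (Finset.card_pos.1 (by omega))
  unfold Dem at hD ⊢
  rw [map_erase_cons hx, hxr, Multiset.cons_le_cons_iff] at hD
  obtain ⟨X, hX⟩ := Multiset.le_iff_exists_add.1 hD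
  have hX1 : 0 < X.card := by
    have h3 := congrArg Multiset.card hX
    rw [Multiset.card_map, Multiset.card_add, Multiset.card_map, Finset.card_val] at h3
    have h4 := Finset.card_erase_add_one hx
    omega
  obtain ⟨y, hy⟩ := Multiset.card_pos_iff_exists_mem.1 hX1
  have hy2 : y ∈ Λ.map ρ := by rw [hX]; exact Multiset.mem_add.2 (Or.inr hy)
  obtain ⟨j, hj, rfl⟩ := Multiset.mem_map.1 hy2
  refine ⟨j, hj, ?_⟩
  rw [map_erase_cons hx, hxr, Multiset.cons_le_cons_iff]
  obtain ⟨Y, hY⟩ := Multiset.exists_cons_of_mem hy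
  have h5 : Λ.map ρ = ρ j ::ₘ (Λ.erase j).map ρ := by
    rw [← Multiset.map_cons, Multiset.cons_erase hj]
  rw [h5, hY, Multiset.add_cons, Multiset.cons_inj_right] at hX
  rw [hX]
  exact Multiset.le_add_right _ _

/-- One removal when there is a spare label. -/
lemma step {W : Finset V} {M : Finset (Sym2 V)} {r : V} {π : V → V} {d : V → ℕ}
    (h : Par W M r π d) (hM : Within W M) (hne : M.Nonempty) {ρ : V → V}
    (hρ : ∀ v, ρ v ≠ v → ∀ e ∈ M, v ∉ e) {Λ : Multiset V} {j : V} (hj : j ∈ Λ)
    (hD : Dem W r π ((Λ.erase j).map ρ)) :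
    ∃ e ∈ M, ∃ c ∈ Λ, (∀ v ∈ e, c ≠ v ∧ s(v, c) ∉ M) ∧
      ∃ r' π' d', Par W (M.erase e) r' π' d' ∧ Dem W r' π' ((Λ.erase c).map ρ) := by
  by_cases hw : ∃ e ∈ M, ρ j ∈ e
  · obtain ⟨e0, he0, hwe⟩ := hw
    set w := ρ j with hwdef
    obtain ⟨y, rfl⟩ := Sym2.mem_iff_exists.1 hwe
    have hwW : w ∈ W := (hM _ _ he0).1
    obtain ⟨π₁, d₁, hP, hD1, -⟩ := reroot h hD _ w hwW rfl
    have hΛ : Λ.map ρ = w ::ₘ (Λ.erase j).map ρ := by
      rw [hwdef, ← Multiset.map_cons, Multiset.cons_erase hj]
    unfold Dem at hD1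
    rw [← hΛ] at hD1
    obtain ⟨i, hi, hmin⟩ := Finset.exists_min_image (W.filter (fun i => s(w, i) ∈ M)) d₁
      ⟨y, Finset.mem_filter.2 ⟨hM.right he0, he0⟩⟩
    rw [Finset.mem_filter] at hi
    obtain ⟨hiW, hwi⟩ := hi
    have hiw : i ≠ w := (hM _ _ hwi).2.symm
    obtain ⟨h1, h2, h3⟩ := hP.2.2 i hiW hiw
    have hi' : i ∈ W.erase w := Finset.mem_erase.2 ⟨hiw, hiW⟩
    have hcmem : π₁ i ∈ Λ.map ρ := by
      refine Multiset.mem_of_le hD1 ?_
      rw [map_erase_cons hi']
      exact Multiset.mem_cons_self _ _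
    obtain ⟨c, hc, hcρ⟩ := Multiset.mem_map.1 hcmem
    refine ⟨s(w, i), hwi, c, hc, ?_, w, Function.update π₁ i w, d₁, ?_, ?_⟩
    · by_cases hcc : ρ c = c
      · rw [hcc] at hcρ
        subst hcρ
        have hn1 : π₁ i ≠ i := by
          intro hh; rw [hh] at h2; exact lt_irrefl _ h2
        have hn2 : π₁ i ≠ w := by
          intro hh
          rw [hh, Sym2.eq_swap] at h3
          exact h3 hwi
        have hn3 : s(w, π₁ i) ∉ M := by
          intro hh
          exact absurd (hmin _ (Finset.mem_filter.2 ⟨h1, hh⟩)) (not_le.2 h2)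
        intro v hv
        rcases Sym2.mem_iff.1 hv with rfl | rfl
        · exact ⟨hn2, hn3⟩
        · exact ⟨hn1, h3⟩
      · intro v hv
        refine ⟨?_, fun hh => hρ c hcc _ hh (by simp)⟩
        rintro rfl
        exact hρ _ hcc _ hwi hv
    · refine ⟨hP.1, hP.2.1, fun x hx hxw => ?_⟩
      by_cases hxi : x = i
      · subst hxi
        rw [Function.update_self]
        refine ⟨hwW, ?_, ?_⟩
        · rw [hP.2.1]; omega
        · rw [Sym2.eq_swap]
          exact Finset.notMem_erase _ _
      · rw [Function.update_of_ne hxi]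
        obtain ⟨h4, h5, h6⟩ := hP.2.2 x hx hxw
        exact ⟨h4, h5, fun hh => h6 (Finset.mem_of_mem_erase hh)⟩
    · unfold Dem
      rw [map_erase_cons hi', Function.update_self, Multiset.cons_le_cons_iff, map_update_erase]
      rw [map_erase_cons hi', ← hcρ, ← Multiset.cons_erase hc, Multiset.map_cons,
        Multiset.cons_le_cons_iff] at hD1
      exact hD1
  · push Not at hw
    obtain ⟨e, he⟩ := hne
    have hjv : ∀ e' ∈ M, j ∉ e' := by
      intro e' he'
      by_cases hjj : ρ j = j
      · have := hw e' he'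
        rwa [hjj] at this
      · exact hρ j hjj e' he'
    refine ⟨e, he, j, hj, fun v hv => ⟨?_, fun hh => hjv _ hh (by simp)⟩, r, π, d, ?_, hD⟩
    · rintro rfl
      exact hjv e he hv
    · refine ⟨h.1, h.2.1, fun x hx hxr => ?_⟩
      obtain ⟨h4, h5, h6⟩ := h.2.2 x hx hxr
      exact ⟨h4, h5, fun hh => h6 (Finset.mem_of_mem_erase hh)⟩

/-- A graph with few edges has many components. -/
lemma colours (M : Finset (Sym2 V)) (A : Finset V) :
    ∃ f : V → V, (∀ i j, s(i, j) ∈ M → f i = f j) ∧ A.card ≤ (A.image f).card + M.card := by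
  induction M using Finset.induction_on with
  | empty => exact ⟨id, fun i j h => by simp at h, by simp⟩
  | insert e M he ih =>
    obtain ⟨f, h1, h2⟩ := ih
    induction e using Sym2.ind with
    | h x y =>
    refine ⟨fun v => if f v = f y then f x else f v, ?_, ?_⟩
    · intro i j hij
      rw [Finset.mem_insert] at hij
      rcases hij with hij | hij
      · rcases Sym2.eq_iff.1 hij with ⟨rfl, rfl⟩ | ⟨rfl, rfl⟩
        · simp
        · simp
      · simp only [h1 i j hij]
    · rw [Finset.card_insert_of_notMem he]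
      have h3 : (A.image f).erase (f y) ⊆ A.image (fun v => if f v = f y then f x else f v) := by
        intro z hz
        rw [Finset.mem_erase, Finset.mem_image] at hz
        obtain ⟨hz1, v, hv, rfl⟩ := hz
        rw [Finset.mem_image]
        exact ⟨v, hv, by simp [hz1]⟩
      have h4 := Finset.card_le_card h3
      have h5 := Finset.pred_card_le_card_erase (s := A.image f) (a := f y)
      omega

lemma split_set (M : Finset (Sym2 V)) (A : Finset V) (p : V) (hp : p ∈ A)
    (hc : M.card + 2 ≤ A.card) :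
    ∃ A' ⊆ A, p ∈ A' ∧ A' ≠ A ∧ ∀ i j, s(i, j) ∈ M → i ∈ A → j ∈ A → (i ∈ A' ↔ j ∈ A') := by
  obtain ⟨f, h1, h2⟩ := colours M A
  refine ⟨A.filter (fun x => f x = f p), Finset.filter_subset _ _, by simp [hp], ?_, ?_⟩
  · intro hh
    have h3 : A.image f ⊆ {f p} := by
      intro z hz
      obtain ⟨x, hx, rfl⟩ := Finset.mem_image.1 hz
      rw [← hh, Finset.mem_filter] at hx
      simp [hx.2]
    have h4 := Finset.card_le_card h3
    rw [Finset.card_singleton] at h4
    omega
  · intro i j hij hi hj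
    simp [hi, hj, h1 i j hij]

end Pool.Agent.KS6_41.Fit
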