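import Pool.Agent.KS6_41.Fit.LA

namespace Pool.Agent.KS6_41.Fit.L

open Matrix Finset Pool.Agent.KS6_41.Fit.MT Classical

variable {n : ℕ} (Γ : SimpleGraph (Fin n))

abbrev NE := {p : Fin n × Fin n // p.1 < p.2 ∧ ¬ Γ.Adj p.1 p.2}

theorem sum_NE (F : Fin n → Fin n → ℝ) (h1 : ∀ i j, F j i = F i j) (h2 : ∀ i, F i i = 0) :
    2 * ∑ r : NE Γ, F r.1.1 r.1.2 = ∑ i, ∑ j, if Γ.Adj i j then 0 else F i j := by
  have h3 : ∑ r : NE Γ, F r.1.1 r.1.2 = ∑ i, ∑ j, if i < j ∧ ¬ Γ.Adj i j then F i j else 0 := by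
    rw [← Fintype.sum_prod_type', ← Finset.sum_filter]
    exact (Finset.sum_subtype _ (by simp) fun p : Fin n × Fin n => F p.1 p.2).symm
  rw [two_mul, h3]
  nth_rewrite 2 [Finset.sum_comm]
  simp only [← Finset.sum_add_distrib]
  refine Finset.sum_congr rfl fun i _ => Finset.sum_congr rfl fun j _ => ?_
  rcases lt_trichotomy i j with h | rfl | h
  · simp [h, h.not_gt]
  · simp [h2]
  · simp [h, h.not_gt, Γ.adj_comm, h1]

noncomputable def wt {R : Type} [CommRing R] (y : Fin n → R) (e : Sym2 (Fin n)) : R :=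
  if e ∈ Γ.edgeSet then Sym2.mul (e.map y) else 0

theorem real_id (r0 : Fin n) (x : Fin n → ℝ) :
    (∏ v, x v ^ 2) * (∑ v, x v ^ 2) ^ n * ∑ f : NE Γ → Fin n × Fin n × Fin n,
      (of fun r c : NE Γ => At x r.1.1 r.1.2 (f c)).det ^ 2 =
    (Fintype.card (NE Γ)).factorial * 6 ^ Fintype.card (NE Γ) *
      (∑ v, x v ^ 2) ^ (Fintype.card (NE Γ) + 2) * tau (wt Γ fun v => x v ^ 2) := by
  set s := ∑ v, x v ^ 2 with hs
  let A : Matrix (NE Γ) (Fin n × Fin n × Fin n) ℝ := of fun r t => At x r.1.1 r.1.2 t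
  let B : Matrix (Fin n) (NE Γ) ℝ := of fun a r =>
    (if a = r.1.1 then x r.1.2 else 0) - (if a = r.1.2 then x r.1.1 else 0)
  have hB : ∀ a (r : NE Γ), ∑ b, e r.1.1 r.1.2 a b * x b = B a r := by
    intro a r
    simp [e, B, sub_mul, Finset.sum_sub_distrib, ite_and]
  have h2 : A * Aᵀ = (6 : ℝ) • (scalar _ s - Bᵀ * B) := by
    ext r r'
    have := gram x (e r.1.1 r.1.2) (e r'.1.1 r'.1.2) (fun a b => e_swap _ _ _ _)
      (fun a b => e_swap _ _ _ _)
    simp only [hB] at this
    have h3 : ∑ a, ∑ b, (e r.1.1 r.1.2 a b * e r'.1.1 r'.1.2 a b : ℝ) =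
        if r = r' then 2 else 0 := by
      obtain ⟨⟨i, j⟩, hij, -⟩ := r
      obtain ⟨⟨k, l⟩, hkl, -⟩ := r'
      have h4 : ∀ G : Fin n → Fin n → ℝ, ∑ a, ∑ b, e i j a b * G a b = G i j - G j i := by
        intro G
        simp [e, sub_mul, Finset.sum_sub_distrib, ite_and]
      simp only at hij hkl
      simp only [h4, Subtype.mk.injEq, Prod.mk.injEq]
      have h5 : ¬ (j = k ∧ i = l) := by rintro ⟨rfl, rfl⟩; exact lt_asymm hij hkl
      simp only [e, h5, if_false]
      split_ifs <;> norm_num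
    rw [mul_apply]
    refine this.trans ?_
    rw [h3]
    simp only [Matrix.smul_apply, Matrix.sub_apply, mul_apply, transpose_apply, scalar_apply, diagonal_apply,
      smul_eq_mul, ← hs]
    split_ifs <;> ring
  have h3 := congrArg (Polynomial.eval s) (charpoly_mul_comm' Bᵀ B)
  simp only [Polynomial.eval_mul, Polynomial.eval_pow, Polynomial.eval_X, eval_charpoly,
    Fintype.card_fin] at h3
  have h4 : diagonal x * (scalar _ s - B * Bᵀ) * diagonal x =
      lap (wt Γ fun v => x v ^ 2) + vecMulVec (fun v => x v ^ 2) fun v => x v ^ 2 := by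
    ext u v
    have h5 := sum_NE Γ (fun i j => ((if u = i then x j else 0) - (if u = j then x i else 0)) *
      ((if v = i then x j else 0) - (if v = j then x i else 0))) (fun i j => by ring)
      (fun i => by ring)
    have h6 : ∀ i j, (if Γ.Adj i j then 0 else ((if u = i then x j else 0) -
        (if u = j then x i else 0)) * ((if v = i then x j else 0) - (if v = j then x i else 0))) =
        (if u = i then if v = i then if Γ.Adj i j then 0 else x j ^ 2 else 0 else 0) +
        (if u = j then if v = j then if Γ.Adj j i then 0 else x i ^ 2 else 0 else 0) -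
        (if u = i then if v = j then if Γ.Adj i j then 0 else x i * x j else 0 else 0) -
        (if u = j then if v = i then if Γ.Adj j i then 0 else x i * x j else 0 else 0) := by
      intro i j
      rw [Γ.adj_comm j i]
      split_ifs <;> ring
    simp only [h6, Finset.sum_sub_distrib, Finset.sum_add_distrib, Finset.sum_ite_eq,
      Finset.mem_univ, if_true, Finset.sum_ite_irrel, Finset.sum_const_zero] at h5
    have h7 : (B * Bᵀ) u v = (if v = u then ∑ j, if Γ.Adj u j then 0 else x j ^ 2 else 0) -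
        if Γ.Adj u v then 0 else x u * x v := by
      rw [mul_apply]
      simp only [B, of_apply, transpose_apply]
      rw [mul_comm (x v)] at h5
      linarith
    have h8 : ∀ a b, wt Γ (fun v => x v ^ 2) s(a, b) =
        if Γ.Adj a b then x a ^ 2 * x b ^ 2 else 0 := fun a b => by simp [wt]
    simp only [diagonal_mul, mul_diagonal, Matrix.sub_apply, h7, scalar_apply, diagonal_apply,
      Matrix.add_apply,
      lap, of_apply, h8, vecMulVec_apply]
    by_cases huv : u = v
    · subst huv
      have h9 : x u ^ 2 * s = ∑ t, (if Γ.Adj u t then x u ^ 2 * x t ^ 2 else 0) +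
          x u ^ 2 * ∑ j, if Γ.Adj u j then 0 else x j ^ 2 := by
        rw [hs, Finset.mul_sum, Finset.mul_sum, ← Finset.sum_add_distrib]
        refine Finset.sum_congr rfl fun j _ => ?_
        split_ifs <;> ring
      simp only [if_true, Γ.irrefl, if_false]
      linear_combination h9
    · simp only [huv, Ne.symm huv, if_false]
      split_ifs <;> ring
  have h5 := congrArg det h4
  rw [det_lap r0 (wt Γ fun v => x v ^ 2) (fun e he => if_neg fun h => Γ.not_isDiag_of_mem_edgeSet h he), det_mul,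
    det_mul, det_diagonal, ← hs] at h5
  have h1 := andreief A
  rw [h2, det_smul] at h1
  have h6 : ∑ f : NE Γ → Fin n × Fin n × Fin n,
      (of fun r c : NE Γ => At x r.1.1 r.1.2 (f c)).det ^ 2 = _ := h1.symm
  rw [h6, Finset.prod_pow]
  linear_combination ((Fintype.card (NE Γ)).factorial * 6 ^ Fintype.card (NE Γ) *
    (∏ v, x v) ^ 2) * h3 + ((Fintype.card (NE Γ)).factorial * 6 ^ Fintype.card (NE Γ) *
      s ^ Fintype.card (NE Γ)) * h5

end Pool.Agent.KS6_41.Fit.L
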