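import Pool.Agent.KS6_41.Fit.LB

namespace Pool.Agent.KS6_41.Fit.L

open Matrix Finset Pool.Agent.KS6_41.Fit.MT Classical MvPolynomial

variable {n : ℕ} (Γ : SimpleGraph (Fin n))

abbrev Mo (n : ℕ) := Multiplicative (Fin n →₀ ℕ)

noncomputable def g (v : Fin n) : Mo n := Multiplicative.ofAdd (Finsupp.single v 1)

theorem phi_g (R : Type*) [CommRing R] (v : Fin n) : monomialOneHom R (Fin n) (g v) = X v := rfl

theorem supp {I J : Type} [Fintype I] [Fintype J] (a : I → ℝ) (b : J → ℝ) (u : I → Mo n)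
    (v : J → Mo n) (ha : ∀ i, 0 ≤ a i)
    (h : ∑ i, a i • monomialOneHom ℝ (Fin n) (u i ^ 2) =
      ∑ j, b j • monomialOneHom ℝ (Fin n) (v j ^ 2)) (i : I) (hi : a i ≠ 0) :
    ∃ j, b j ≠ 0 ∧ v j = u i := by
  by_contra hc
  push Not at hc
  have inj : ∀ p q : Mo n, (p ^ 2).toAdd = (q ^ 2).toAdd → p = q := by
    intro p q hpq
    apply Multiplicative.toAdd.injective
    ext t
    have := DFunLike.congr_fun hpq t
    simp only [toAdd_pow, Finsupp.smul_apply, smul_eq_mul] at this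
    omega
  have := congrArg (coeff (u i ^ 2).toAdd) h
  have hm : ∀ p : Mo n, monomialOneHom ℝ (Fin n) p = monomial p.toAdd 1 := fun _ => rfl
  simp only [coeff_sum, coeff_smul, hm, coeff_monomial, smul_eq_mul] at this
  rw [Finset.sum_eq_zero (s := univ) (f := fun j => b j * _) fun j _ => by
    by_cases hb : b j = 0
    · rw [hb, zero_mul]
    · rw [if_neg fun e => hc j hb (inj _ _ e), mul_zero]] at this
  have h2 := (Finset.sum_eq_zero_iff_of_nonneg fun i' _ =>
    mul_nonneg (ha i') (by split_ifs <;> norm_num)).1 this i (mem_univ _)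
  rw [if_pos rfl, mul_one] at h2
  exact hi h2

noncomputable def tM {m : Type} [Fintype m] (f : m → Fin n × Fin n × Fin n) : Mo n :=
  ∏ c, g (f c).1 * g (f c).2.1 * g (f c).2.2

noncomputable def rM : Mo n := ∏ r : NE Γ, g r.1.1 * g r.1.2

noncomputable def eM (T : Finset (Sym2 (Fin n))) : Mo n := ∏ e ∈ T, Sym2.mul (e.map g)

noncomputable def cf (f : NE Γ → Fin n × Fin n × Fin n) : ℤ :=
  (of fun r c : NE Γ => At (fun _ => (1 : ℤ)) r.1.1 r.1.2 (f c)).det

def Good (T : Finset (Sym2 (Fin n))) : Prop :=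
  (SimpleGraph.fromEdgeSet (T : Set (Sym2 (Fin n)))).IsTree ∧ ∀ e ∈ T, e ∈ Γ.edgeSet

theorem poly_id (r0 : Fin n) (k : ℕ) (hk : Fintype.card (NE Γ) + 2 = n + k) :
    ∑ f : NE Γ → Fin n × Fin n × Fin n,
      ((cf Γ f : ℝ) ^ 2) • monomialOneHom ℝ (Fin n) (((∏ v, g v) * tM f) ^ 2) =
    ∑ p : (Fin k → Fin n) × Finset (Sym2 (Fin n)),
      (if Good Γ p.2 then ((Fintype.card (NE Γ)).factorial * 6 ^ Fintype.card (NE Γ) : ℝ) else 0) •
        monomialOneHom ℝ (Fin n) ((rM Γ * ((∏ j, g (p.1 j)) * eM p.2)) ^ 2) := by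
  have hS : (∑ v, X v ^ 2 : MvPolynomial (Fin n) ℝ) ≠ 0 := by
    intro h
    have := congrArg (eval fun _ => (1 : ℝ)) h
    simp at this
    exact r0.pos.ne' this
  refine mul_left_cancel₀ (pow_ne_zero n hS) (MvPolynomial.funext fun x => ?_)
  have h1 := real_id Γ r0 x
  have h2 : ∀ f : NE Γ → Fin n × Fin n × Fin n, _ := fun f =>
    det_scale x (fun r : NE Γ => r.1.1) (fun r => r.1.2) f
  have h3 : ∀ e : Sym2 (Fin n), eval x (monomialOneHom ℝ (Fin n) (Sym2.mul (e.map g))) ^ 2 =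
      Sym2.mul (e.map fun v => x v ^ 2) := by
    intro e
    induction e using Sym2.ind
    simp only [Sym2.map_mk, Sym2.mul_mk, map_mul, phi_g, eval_X, mul_pow]
  have h4 : tau (wt Γ fun v => x v ^ 2) = ∑ T : Finset (Sym2 (Fin n)),
      if Good Γ T then eval x (monomialOneHom ℝ (Fin n) (eM T)) ^ 2 else 0 := by
    rw [tau, Finset.sum_filter]
    refine Finset.sum_congr rfl fun T _ => ?_
    simp only [wt, Finset.prod_ite_zero, Good, ite_and, eM, map_prod, ← Finset.prod_pow, h3]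
    split_ifs <;> rfl
  have h5 : (∑ v, x v ^ 2) ^ k = ∑ h : Fin k → Fin n, (∏ j, x (h j)) ^ 2 := by
    rw [Fintype.sum_pow]
    simp only [Finset.prod_pow]
  rw [hk, pow_add, h5, h4] at h1
  simp only [map_mul, map_pow, map_sum, eval_X, smul_eval, map_prod, phi_g, tM, rM]
  have h6 : ∀ f : NE Γ → Fin n × Fin n × Fin n, (cf Γ f : ℝ) ^ 2 *
      ((∏ v, x v) * ∏ c, x (f c).1 * x (f c).2.1 * x (f c).2.2) ^ 2 =
      (∏ r : NE Γ, x r.1.1 * x r.1.2) ^ 2 * (∏ v, x v ^ 2) *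
        (of fun r c : NE Γ => At x r.1.1 r.1.2 (f c)).det ^ 2 := by
    intro f
    rw [Finset.prod_pow, mul_right_comm, ← mul_pow (∏ r : NE Γ, _), h2, cf]
    ring
  simp only [h6]
  rw [← Finset.mul_sum, Fintype.sum_prod_type]
  have h7 : ∀ (h : Fin k → Fin n) (T : Finset (Sym2 (Fin n))),
      (if Good Γ T then ((Fintype.card (NE Γ)).factorial * 6 ^ Fintype.card (NE Γ) : ℝ) else 0) *
      ((∏ r : NE Γ, x r.1.1 * x r.1.2) * ((∏ j, x (h j)) *
        eval x (monomialOneHom ℝ (Fin n) (eM T)))) ^ 2 =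
      ((Fintype.card (NE Γ)).factorial * 6 ^ Fintype.card (NE Γ) *
        (∏ r : NE Γ, x r.1.1 * x r.1.2) ^ 2) * ((∏ j, x (h j)) ^ 2 *
        if Good Γ T then eval x (monomialOneHom ℝ (Fin n) (eM T)) ^ 2 else 0) := by
    intro h T
    split_ifs <;> ring
  simp only [h7, ← Finset.mul_sum, ← Finset.sum_mul]
  linear_combination (∏ r : NE Γ, x r.1.1 * x r.1.2) ^ 2 * h1

theorem eM_tree (T : SimpleGraph (Fin n)) [Nontrivial (Fin n)] (hT : T.IsTree) :
    eM T.edgeFinset = (∏ v, g v) * ∏ v, g v ^ (T.degree v - 1) := by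
  have h1 : ∀ e ∈ T.edgeFinset, Sym2.mul (e.map g) = ∏ v, if v ∈ e then g v else 1 := by
    intro e he
    induction e using Sym2.ind with
    | h a b =>
      have hab : a ≠ b := (T.mem_edgeSet.1 (SimpleGraph.mem_edgeFinset.1 he)).ne
      rw [← Finset.prod_filter, show univ.filter (· ∈ s(a, b)) = {a, b} by ext; simp,
        Finset.prod_pair hab]
      simp
  rw [eM, Finset.prod_congr rfl h1, Finset.prod_comm, ← Finset.prod_mul_distrib]
  refine Finset.prod_congr rfl fun v _ => ?_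
  rw [← Finset.prod_filter, Finset.prod_const, ← SimpleGraph.incidenceFinset_eq_filter,
    SimpleGraph.card_incidenceFinset_eq_degree, ← pow_succ', Nat.sub_add_cancel]
  exact hT.connected.preconnected.degree_pos_of_nontrivial v

theorem key [Nontrivial (Fin n)] (k : ℕ) (hk : Fintype.card (NE Γ) + 2 = n + k) (m : Mo n) :
    (∃ f : NE Γ → Fin n × Fin n × Fin n, cf Γ f ≠ 0 ∧ tM f = m) ↔
      ∃ (T : SimpleGraph (Fin n)) (h : Fin k → Fin n), T ≤ Γ ∧ T.IsTree ∧
        rM Γ * ((∏ v, g v ^ (T.degree v - 1)) * ∏ j, g (h j)) = m := by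
  obtain ⟨r0, -⟩ := exists_pair_ne (Fin n)
  have hp := poly_id Γ r0 k hk
  constructor
  · rintro ⟨f, hf, rfl⟩
    obtain ⟨⟨h, T⟩, h1, h2⟩ := supp _ _ _ _ (fun f => sq_nonneg _) hp f
      (pow_ne_zero 2 (Int.cast_ne_zero.2 hf))
    have h3 : Good Γ T := by
      by_contra h4
      exact h1 (if_neg h4)
    have h4 : ∀ [Fintype (SimpleGraph.fromEdgeSet (T : Set (Sym2 (Fin n)))).edgeSet],
        (SimpleGraph.fromEdgeSet (T : Set (Sym2 (Fin n)))).edgeFinset = T := by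
      intro _
      ext e
      rw [SimpleGraph.mem_edgeFinset,
        edgeSet_nd fun e he => Γ.not_isDiag_of_mem_edgeSet (h3.2 e he), Finset.mem_coe]
    refine ⟨_, h, ?_, h3.1, mul_left_cancel (a := ∏ v, g v) ?_⟩
    · rw [← SimpleGraph.edgeSet_subset_edgeSet,
        edgeSet_nd fun e he => Γ.not_isDiag_of_mem_edgeSet (h3.2 e he)]
      exact h3.2
    · have h5 := eM_tree _ h3.1
      rw [@h4 (_)] at h5
      rw [← h2, h5]
      simp only [mul_assoc, mul_comm, mul_left_comm]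
  · rintro ⟨T, h, h1, h2, rfl⟩
    have h3 : Good Γ T.edgeFinset := ⟨by simpa using h2, fun e he =>
      SimpleGraph.edgeSet_mono h1 (SimpleGraph.mem_edgeFinset.1 he)⟩
    obtain ⟨f, h4, h5⟩ := supp _ _ _ _ (fun p => by split_ifs <;> positivity) hp.symm
      (h, T.edgeFinset) (by rw [if_pos h3]; positivity)
    refine ⟨f, fun h0 => h4 (by simp [h0]), mul_left_cancel (a := ∏ v, g v) ?_⟩
    rw [h5, eM_tree T h2]
    simp only [mul_assoc, mul_comm, mul_left_comm]

end Pool.Agent.KS6_41.Fit.L
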