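import Pool.Agent.KS6_41.Fit.LC

namespace Pool.Agent.KS6_41.Fit.L

open Matrix Finset Pool.Agent.KS6_41.Fit.MT Classical MvPolynomial

variable {n : ℕ} (Γ : SimpleGraph (Fin n))

theorem poly_id' (r0 : Fin n) (k : ℕ) (hk : Fintype.card (NE Γ) + 2 + k = n) :
    ∑ p : (NE Γ → Fin n × Fin n × Fin n) × (Fin k → Fin n),
      ((cf Γ p.1 : ℝ) ^ 2) • monomialOneHom ℝ (Fin n)
        (((∏ v, g v) * (tM p.1 * ∏ j, g (p.2 j))) ^ 2) =
    ∑ T : Finset (Sym2 (Fin n)),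
      (if Good Γ T then ((Fintype.card (NE Γ)).factorial * 6 ^ Fintype.card (NE Γ) : ℝ) else 0) •
        monomialOneHom ℝ (Fin n) ((rM Γ * eM T) ^ 2) := by
  have hS : (∑ v, X v ^ 2 : MvPolynomial (Fin n) ℝ) ≠ 0 := by
    intro h
    have := congrArg (eval fun _ => (1 : ℝ)) h
    simp at this
    exact r0.pos.ne' this
  refine mul_left_cancel₀ (pow_ne_zero (Fintype.card (NE Γ) + 2) hS)
    (MvPolynomial.funext fun x => ?_)
  have h1 := real_id Γ r0 x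
  have h2 : ∀ f : NE Γ → Fin n × Fin n × Fin n, _ := fun f =>
    det_scale x (fun r : NE Γ => r.1.1) (fun r => r.1.2) f
  have h3 : ∀ e : Sym2 (Fin n), eval x (monomialOneHom ℝ (Fin n) (Sym2.mul (e.map g))) ^ 2 =
      Sym2.mul (e.map fun v => x v ^ 2) := by
    intro e
    induction e using Sym2.ind
    simp only [Sym2.map_mk, Sym2.mul_mk, map_mul, phi_g, eval_X, mul_pow]
  have h4 : tau (wt Γ fun v => x v ^ 2) = ∑ T : Finset (Sym2 (Fin n)),
      if Good Γ T then eval x (monomialOneHom ℝ (Fin n) (eM T)) ^ 2 else 0 := by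
    rw [tau, Finset.sum_filter]
    refine Finset.sum_congr rfl fun T _ => ?_
    simp only [wt, Finset.prod_ite_zero, Good, ite_and, eM, map_prod, ← Finset.prod_pow, h3]
    split_ifs <;> rfl
  have h5 : (∑ v, x v ^ 2) ^ k = ∑ h : Fin k → Fin n, (∏ j, x (h j)) ^ 2 := by
    rw [Fintype.sum_pow]
    simp only [Finset.prod_pow]
  have h1' : (∑ v, x v ^ 2) ^ (Fintype.card (NE Γ) + 2) * ((∏ v, x v ^ 2) *
      ((∑ v, x v ^ 2) ^ k * ∑ f : NE Γ → Fin n × Fin n × Fin n,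
        (of fun r c : NE Γ => At x r.1.1 r.1.2 (f c)).det ^ 2)) =
      (∑ v, x v ^ 2) ^ (Fintype.card (NE Γ) + 2) * ((Fintype.card (NE Γ)).factorial *
        6 ^ Fintype.card (NE Γ) * tau (wt Γ fun v => x v ^ 2)) := by
    have h9 : (∑ v, x v ^ 2) ^ n = (∑ v, x v ^ 2) ^ (Fintype.card (NE Γ) + 2) *
        (∑ v, x v ^ 2) ^ k := by rw [← pow_add, hk]
    rw [h9] at h1
    linear_combination h1
  rw [h5, h4] at h1'
  simp only [map_mul, map_pow, map_sum, eval_X, smul_eval, map_prod, phi_g, tM, rM]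
  have h6 : ∀ (f : NE Γ → Fin n × Fin n × Fin n) (h : Fin k → Fin n), (cf Γ f : ℝ) ^ 2 *
      ((∏ v, x v) * ((∏ c, x (f c).1 * x (f c).2.1 * x (f c).2.2) * ∏ j, x (h j))) ^ 2 =
      (∏ r : NE Γ, x r.1.1 * x r.1.2) ^ 2 * (∏ v, x v ^ 2) *
        ((of fun r c : NE Γ => At x r.1.1 r.1.2 (f c)).det ^ 2 * (∏ j, x (h j)) ^ 2) := by
    intro f h
    rw [Finset.prod_pow]
    have := h2 f
    rw [← cf] at this
    calc (cf Γ f : ℝ) ^ 2 *
      ((∏ v, x v) * ((∏ c, x (f c).1 * x (f c).2.1 * x (f c).2.2) * ∏ j, x (h j))) ^ 2 =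
      (∏ v, x v) ^ 2 * (∏ j, x (h j)) ^ 2 *
        ((∏ c, x (f c).1 * x (f c).2.1 * x (f c).2.2) * (cf Γ f : ℝ)) ^ 2 := by ring
      _ = _ := by rw [← this]; ring
  rw [Fintype.sum_prod_type]
  simp only [h6]
  simp only [← Finset.mul_sum, ← Finset.sum_mul]
  have h7 : ∀ T : Finset (Sym2 (Fin n)),
      (if Good Γ T then ((Fintype.card (NE Γ)).factorial * 6 ^ Fintype.card (NE Γ) : ℝ) else 0) *
      ((∏ r : NE Γ, x r.1.1 * x r.1.2) *
        eval x (monomialOneHom ℝ (Fin n) (eM T))) ^ 2 =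
      ((Fintype.card (NE Γ)).factorial * 6 ^ Fintype.card (NE Γ) *
        (∏ r : NE Γ, x r.1.1 * x r.1.2) ^ 2) *
        if Good Γ T then eval x (monomialOneHom ℝ (Fin n) (eM T)) ^ 2 else 0 := by
    intro T
    split_ifs <;> ring
  simp only [h7, ← Finset.mul_sum]
  linear_combination (∏ r : NE Γ, x r.1.1 * x r.1.2) ^ 2 * h1'

theorem key' [Nontrivial (Fin n)] (k : ℕ) (hk : Fintype.card (NE Γ) + 2 + k = n)
    (f : NE Γ → Fin n × Fin n × Fin n) (hf : cf Γ f ≠ 0) (h : Fin k → Fin n) :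
      ∃ (T : SimpleGraph (Fin n)), T ≤ Γ ∧ T.IsTree ∧
        rM Γ * (∏ v, g v ^ (T.degree v - 1)) = tM f * ∏ j, g (h j) := by
  obtain ⟨r0, -⟩ := exists_pair_ne (Fin n)
  have hp := poly_id' Γ r0 k hk
  obtain ⟨T, h1, h2⟩ := supp _ _ _ _ (fun p => sq_nonneg _) hp (f, h)
      (pow_ne_zero 2 (Int.cast_ne_zero.2 hf))
  have h3 : Good Γ T := by
    by_contra h4
    exact h1 (if_neg h4)
  have h4 : ∀ [Fintype (SimpleGraph.fromEdgeSet (T : Set (Sym2 (Fin n)))).edgeSet],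
      (SimpleGraph.fromEdgeSet (T : Set (Sym2 (Fin n)))).edgeFinset = T := by
    intro _
    ext e
    rw [SimpleGraph.mem_edgeFinset,
      edgeSet_nd fun e he => Γ.not_isDiag_of_mem_edgeSet (h3.2 e he), Finset.mem_coe]
  refine ⟨_, ?_, h3.1, mul_left_cancel (a := ∏ v, g v) ?_⟩
  · rw [← SimpleGraph.edgeSet_subset_edgeSet,
      edgeSet_nd fun e he => Γ.not_isDiag_of_mem_edgeSet (h3.2 e he)]
    exact h3.2
  · have h5 := eM_tree _ h3.1
    rw [@h4 (_)] at h5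
    rw [← h2, h5]
    simp only [mul_assoc, mul_comm, mul_left_comm]

end Pool.Agent.KS6_41.Fit.L
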