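import Pool.Agent.KS6_41.Fit.LD
import Pool.Agent.KS6_41.Fit.Claim

set_option autoImplicit false

namespace Pool.Agent.KS6_41.Fit

open Finset Classical

lemma det_rank {m R : Type*} [Fintype m] [DecidableEq m] [CommRing R] (A : Matrix m m R)
    (b : m → ℕ) (h : ∀ i j, i ≠ j → b j ≤ b i → A i j = 0) : A.det = ∏ i, A i i := by
  rw [Matrix.det_apply', Finset.sum_eq_single 1]
  · simp
  · intro σ _ hσ
    have h0 : ∃ i, A (σ i) i = 0 := by
      by_contra hcon
      push Not at hcon
      have h1 : ∀ i, b (σ i) ≤ b i := by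
        intro i
        by_cases hi : σ i = i
        · rw [hi]
        · by_contra h2
          exact hcon i (h _ _ hi (not_le.1 h2).le)
      have h2 : ∃ i, b (σ i) < b i := by
        obtain ⟨i, hi⟩ : ∃ i, σ i ≠ i := by
          by_contra h3
          push Not at h3
          exact hσ (Equiv.ext h3)
        refine ⟨i, ?_⟩
        by_contra h3
        exact hcon i (h _ _ hi (not_lt.1 h3))
      obtain ⟨i, hi⟩ := h2
      have h3 := Finset.sum_lt_sum (s := (univ : Finset m)) (fun j _ => h1 j) ⟨i, mem_univ _, hi⟩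
      rw [Equiv.sum_comp σ b] at h3
      exact lt_irrefl _ h3
    obtain ⟨i, hi⟩ := h0
    rw [Finset.prod_eq_zero (f := fun i => A (σ i) i) (mem_univ i) hi, mul_zero]
  · intro h1
    exact absurd (mem_univ _) h1

/-- the multiset in which `v` occurs `e v` times -/
noncomputable def ms {V : Type*} [Fintype V] (e : V → ℕ) : Multiset V :=
  ∑ v, Multiset.replicate (e v) v

lemma count_ms {V : Type*} [Fintype V] [DecidableEq V] (e : V → ℕ) (v : V) :
    (ms e).count v = e v := by
  rw [ms, Multiset.count_sum']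
  simp [Multiset.count_replicate]

lemma card_ms {V : Type*} [Fintype V] (e : V → ℕ) : (ms e).card = ∑ v, e v := by
  rw [ms, Multiset.card_sum]
  simp

lemma prod_ms {V R : Type*} [Fintype V] [CommMonoid R] (e : V → ℕ) (f : V → R) :
    ((ms e).map f).prod = ∏ v, f v ^ e v := by
  have h1 : (ms e).map f = ∑ v, Multiset.replicate (e v) (f v) := by
    rw [ms, ← Multiset.coe_mapAddMonoidHom, map_sum]
    simp
  rw [h1, Multiset.prod_sum]
  simp

lemma tree_par {V : Type*} [Fintype V] [DecidableEq V] (T : SimpleGraph V)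
    [∀ v, Fintype (T.neighborSet v)] (hT : T.Connected)
    (M : Finset (Sym2 V)) (hM : ∀ x y, T.Adj x y → s(x, y) ∉ M) (r : V) :
    ∃ π d, Par univ M r π d ∧ Dem univ r π (ms fun v => T.degree v - 1) := by
  have h1 : ∀ x, x ≠ r → ∃ y, T.Adj x y ∧ T.dist y r < T.dist x r := by
    intro x hx
    obtain ⟨p, hp⟩ := hT.exists_walk_length_eq_dist x r
    cases p with
    | nil => exact absurd rfl hx
    | cons hadj q =>
      refine ⟨_, hadj, ?_⟩
      rw [SimpleGraph.Walk.length_cons] at hp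
      have := SimpleGraph.dist_le q
      omega
  choose! π hπ using h1
  refine ⟨π, fun x => T.dist x r, ⟨mem_univ _, by simp, fun x _ hx => ⟨mem_univ _, (hπ x hx).2,
    hM _ _ (hπ x hx).1⟩⟩, ?_⟩
  unfold Dem
  rw [Multiset.le_iff_count]
  intro v
  rw [Multiset.count_cons, count_ms, Multiset.count_map]
  have h2 : (Multiset.filter (fun a => v = π a) (univ.erase r).val).card =
      ((univ.erase r).filter (fun a => v = π a)).card := rfl
  rw [h2]
  by_cases hv : v = r
  · subst hv
    have h3 : (univ.erase v).filter (fun a => v = π a) ⊆ T.neighborFinset v := by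
      intro x hx
      rw [Finset.mem_filter, Finset.mem_erase] at hx
      rw [SimpleGraph.mem_neighborFinset]
      have := (hπ x hx.1.1).1
      rw [← hx.2] at this
      exact this.symm
    have h4 := Finset.card_le_card h3
    rw [SimpleGraph.card_neighborFinset_eq_degree] at h4
    rw [if_pos rfl]
    omega
  · have h3 : (univ.erase r).filter (fun a => v = π a) ⊆ (T.neighborFinset v).erase (π v) := by
      intro x hx
      rw [Finset.mem_filter, Finset.mem_erase] at hx
      rw [Finset.mem_erase, SimpleGraph.mem_neighborFinset]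
      obtain ⟨h5, h6⟩ := hπ x hx.1.1
      rw [← hx.2] at h5 h6
      refine ⟨fun h7 => ?_, h5.symm⟩
      have h8 := (hπ v hv).2
      rw [← h7] at h8
      exact lt_asymm h6 h8
    have h4 := Finset.card_le_card h3
    rw [Finset.card_erase_of_mem (by
      rw [SimpleGraph.mem_neighborFinset]; exact (hπ v hv).1),
      SimpleGraph.card_neighborFinset_eq_degree] at h4
    rw [if_neg hv]
    omega


open Pool.Agent.KS6_41.Fit.L in
/-- The determinant attached to a way of removing all non-edges. -/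
theorem det_clo {n : ℕ} {R : Type*} [CommRing R] (Γ : SimpleGraph (Fin n)) (x : Fin n → R)
    (X : Multiset (Fin n)) (h : Clo (univ.image (fun r : NE Γ => s(r.1.1, r.1.2))) X) :
    ∃ f : NE Γ → Fin n × Fin n × Fin n,
      (Matrix.of fun r c : NE Γ => At x r.1.1 r.1.2 (f c)).det = (X.map x).prod := by
  obtain ⟨lab, t, hX, hP⟩ := h
  have hinj : Function.Injective (fun r : NE Γ => s(r.1.1, r.1.2)) := by
    rintro ⟨⟨i, j⟩, hij, h1⟩ ⟨⟨k, l⟩, hkl, h2⟩ h3
    simp only at h3 hij hkl
    rcases Sym2.eq_iff.1 h3 with ⟨rfl, rfl⟩ | ⟨rfl, rfl⟩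
    · rfl
    · exact absurd hij (lt_asymm hkl)
  have hmem : ∀ r : NE Γ, s(r.1.1, r.1.2) ∈ univ.image (fun r : NE Γ => s(r.1.1, r.1.2)) :=
    fun r => Finset.mem_image_of_mem _ (mem_univ r)
  refine ⟨fun r => (r.1.1, r.1.2, lab s(r.1.1, r.1.2)), ?_⟩
  rw [det_rank _ (fun r => t s(r.1.1, r.1.2))]
  · have h1 : (X.map x).prod = ∏ e ∈ univ.image (fun r : NE Γ => s(r.1.1, r.1.2)), x (lab e) := by
      rw [← hX, Multiset.map_map]
      rfl
    rw [h1, Finset.prod_image (fun a _ b _ h => hinj h)]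
    refine Finset.prod_congr rfl fun r _ => ?_
    obtain ⟨h2, -⟩ := hP r.1.1 r.1.2 (hmem r)
    obtain ⟨h3, -⟩ := hP r.1.2 r.1.1 (by rw [Sym2.eq_swap]; exact hmem r)
    rw [show s(r.1.2, r.1.1) = s(r.1.1, r.1.2) from Sym2.eq_swap] at h3
    have h4 : r.1.1 ≠ r.1.2 := r.2.1.ne
    simp only [Matrix.of_apply, At, e]
    simp [h2, h3, h4, h4.symm]
  · intro r c hrc hle
    obtain ⟨h2, h2'⟩ := hP c.1.1 c.1.2 (hmem c)
    obtain ⟨h3, h3'⟩ := hP c.1.2 c.1.1 (by rw [Sym2.eq_swap]; exact hmem c)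
    rw [show s(c.1.2, c.1.1) = s(c.1.1, c.1.2) from Sym2.eq_swap] at h3 h3'
    set l := lab s(c.1.1, c.1.2) with hl
    have hn1 : s(r.1.1, r.1.2) ≠ s(c.1.1, l) := by
      intro hh
      have := h2' (hh ▸ hmem r)
      rw [← hh] at this
      omega
    have hn2 : s(r.1.1, r.1.2) ≠ s(c.1.2, l) := by
      intro hh
      have := h3' (hh ▸ hmem r)
      rw [← hh] at this
      omega
    have hn3 : s(r.1.1, r.1.2) ≠ s(c.1.1, c.1.2) := fun hh => hrc (hinj hh)
    rw [ne_eq, Sym2.eq_iff, not_or] at hn1 hn2 hn3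
    have e0 : ∀ a b : Fin n, ¬ (r.1.1 = a ∧ r.1.2 = b) → ¬ (r.1.1 = b ∧ r.1.2 = a) →
        (e r.1.1 r.1.2 a b : R) = 0 := by
      intro a b h4 h5
      unfold e
      rw [if_neg (fun h6 => h4 ⟨h6.1.symm, h6.2.symm⟩),
        if_neg (fun h6 => h5 ⟨h6.1.symm, h6.2.symm⟩), sub_zero]
    simp only [Matrix.of_apply, At]
    rw [e0 _ _ hn3.1 hn3.2, e0 _ _ hn1.1 hn1.2, e0 _ _ hn2.1 hn2.2]
    simp

open Pool.Agent.KS6_41.Fit.L in
/-- For every spanning tree `T` and every family `h` of vertices there is a partial labelling. -/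
theorem exists_clo {n : ℕ} (hn : 2 ≤ n) (Γ T : SimpleGraph (Fin n)) (hT : T ≤ Γ)
    (hTT : T.IsTree) (k : ℕ) (h : Fin k → Fin n) (hk : Fintype.card (NE Γ) + 2 ≤ n + k) :
    ∃ X Y : Multiset (Fin n), X.card = Fintype.card (NE Γ) ∧
      X + Y = ms (fun v => T.degree v - 1) + (univ : Finset (Fin k)).val.map h ∧
      Y.card + Fintype.card (NE Γ) + 2 = n + k ∧
      Clo (univ.image (fun r : NE Γ => s(r.1.1, r.1.2))) X := by
  have : Nontrivial (Fin n) := Fin.nontrivial_iff_two_le.2 hn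
  set M := univ.image (fun r : NE Γ => s(r.1.1, r.1.2)) with hM
  have hinj : Function.Injective (fun r : NE Γ => s(r.1.1, r.1.2)) := by
    rintro ⟨⟨i, j⟩, hij, h1⟩ ⟨⟨k, l⟩, hkl, h2⟩ h3
    simp only at h3 hij hkl
    rcases Sym2.eq_iff.1 h3 with ⟨rfl, rfl⟩ | ⟨rfl, rfl⟩
    · rfl
    · exact absurd hij (lt_asymm hkl)
  have hMc : M.card = Fintype.card (NE Γ) := by
    rw [hM, Finset.card_image_of_injective _ hinj, Finset.card_univ]
  have hMn : ∀ i j, s(i, j) ∈ M → ¬ Γ.Adj i j ∧ i ≠ j := by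
    intro i j hij
    rw [hM, Finset.mem_image] at hij
    obtain ⟨r, -, hr⟩ := hij
    rcases Sym2.eq_iff.1 hr with ⟨h1, h2⟩ | ⟨h1, h2⟩
    · rw [← h1, ← h2]
      exact ⟨r.2.2, r.2.1.ne⟩
    · rw [← h1, ← h2]
      exact ⟨fun h3 => r.2.2 h3.symm, r.2.1.ne'⟩
  obtain ⟨π, d, hP, hD⟩ := tree_par T hTT.connected M (fun x y hxy hh => (hMn x y hh).1 (hT hxy))
    ⟨0, by omega⟩
  have hdeg : (∑ v, (T.degree v - 1)) + 2 = n := by
    have h1 := T.sum_degrees_eq_twice_card_edges
    have h2 := hTT.card_edgeFinset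
    rw [Fintype.card_fin] at h2
    have h3 : ∑ v, T.degree v = ∑ v, (T.degree v - 1) + n := by
      have hcn : ∑ _v : Fin n, 1 = n := by simp
      calc ∑ v, T.degree v = ∑ v, ((T.degree v - 1) + 1) := by
            refine Finset.sum_congr rfl fun v _ => ?_
            have := hTT.connected.preconnected.degree_pos_of_nontrivial v
            omega
        _ = _ := by rw [Finset.sum_add_distrib, hcn]
    have h4 : T.edgeFinset.card + 1 = n := by convert h2
    omega
  have hΛ : (ms (fun v => T.degree v - 1) + (univ : Finset (Fin k)).val.map h).card + 2 =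
      n + k := by
    rw [Multiset.card_add, card_ms, Multiset.card_map, Finset.card_val, Finset.card_univ,
      Fintype.card_fin]
    omega
  have hD' : Dem univ (⟨0, by omega⟩ : Fin n) π
      (ms (fun v => T.degree v - 1) + (univ : Finset (Fin k)).val.map h) := by
    unfold Dem at hD ⊢
    refine hD.trans ?_
    rw [Multiset.cons_le_cons_iff]
    exact Multiset.le_add_right _ _
  obtain ⟨X, hX, h1, h2⟩ := vclaim _ univ M _ _ π d rfl
    (fun i j hij => ⟨mem_univ _, (hMn i j hij).2⟩) hP hD' (by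
      rw [Finset.card_univ, Fintype.card_fin]; exact hn) (by rw [hMc]; omega)
  obtain ⟨Y, hY⟩ := Multiset.le_iff_exists_add.1 hX
  refine ⟨X, Y, h1.trans hMc, hY.symm, ?_, h2⟩
  rw [hY, Multiset.card_add, h1, hMc] at hΛ
  omega

end Pool.Agent.KS6_41.Fit
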